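import Pool.Agent.Lib.MP_e1f7e2_al.FA.Iface2

set_option autoImplicit false

/-!
Project FA, module ANICK: the automorphism of Anick is wild (given the facts).
-/

open MulOpposite

namespace Pool.Agent.Lib.MP_e1f7e2_al.FA.H36

section

variable {K : Type*} [Field K]

lemma dg_eq {n : ℕ} {w : Fin n → ℝ} {p : A K n} {r : ℝ}
    (h1 : ∀ u ∈ p.coeff.support, wt w u ≤ r) {u : Wd n} (hu : p.coeff u ≠ 0)
    (h2 : wt w u = r) : dg w p = r := by
  unfold dg dgr
  have hne : p.coeff.support.Nonempty := ⟨u, by simpa using hu⟩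
  rw [dif_pos hne]
  apply le_antisymm
  · exact Finset.sup'_le _ _ h1
  · rw [← h2]
    exact Finset.le_sup' (wt w) (by simpa using hu)

/-- the monomial of a list of letters -/
noncomputable def mo (K : Type*) [Field K] (l : List (Fin 3)) : A K 3 :=
  MonoidAlgebra.single (FreeMonoid.ofList l) 1

lemma mo_mul (l l' : List (Fin 3)) : (mo K l * mo K l' : A K 3) = mo K (l ++ l') := by
  unfold mo
  rw [MonoidAlgebra.single_mul_single, ← FreeMonoid.ofList_append, one_mul]

lemma mo_xx (i : Fin 3) : (xx i : A K 3) = mo K [i] := rfl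

lemma mo_coeff (l : List (Fin 3)) (u : Wd 3) :
    (mo K l : A K 3).coeff u = if l = u.toList then 1 else 0 := by
  unfold mo
  classical
  rw [MonoidAlgebra.coeff_single, Finsupp.single_apply]
  by_cases h : l = u.toList
  · rw [if_pos h, if_pos (by rw [h]; rfl)]
  · rw [if_neg h, if_neg]
    intro h'
    exact h (by rw [← h']; rfl)

/-- sums of two monomials of the same weight -/
lemma dg_two {w : Fin 3 → ℝ} (l l' : List (Fin 3)) (hl : l ≠ l') (a b : K) (r : ℝ)
    (h : (l.map w).sum = r) (h' : (l'.map w).sum = r) (hab : a ≠ 0 ∨ b ≠ 0) :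
    dg w (a • mo K l + b • mo K l') = r := by
  have hc : ∀ u : Wd 3, (a • mo K l + b • mo K l' : A K 3).coeff u =
      (if l = u.toList then a else 0) + (if l' = u.toList then b else 0) := by
    intro u
    rw [MonoidAlgebra.coeff_add, Finsupp.add_apply, MonoidAlgebra.coeff_smul,
      MonoidAlgebra.coeff_smul, Finsupp.smul_apply, Finsupp.smul_apply, mo_coeff, mo_coeff]
    split_ifs <;> simp
  have h1 : ∀ u ∈ (a • mo K l + b • mo K l' : A K 3).coeff.support, wt w u ≤ r := by
    intro u hu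
    rw [Finsupp.mem_support_iff, hc] at hu
    by_cases h1 : l = u.toList
    · unfold wt
      rw [← h1]
      exact h.le
    · by_cases h2 : l' = u.toList
      · unfold wt
        rw [← h2]
        exact h'.le
      · rw [if_neg h1, if_neg h2] at hu
        simp at hu
  rcases hab with ha | hb
  · refine dg_eq h1 (u := FreeMonoid.ofList l) ?_ h
    rw [hc, FreeMonoid.toList_ofList, if_pos rfl, if_neg hl.symm]
    simpa using ha
  · refine dg_eq h1 (u := FreeMonoid.ofList l') ?_ h'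
    rw [hc, FreeMonoid.toList_ofList, if_neg hl, if_pos rfl]
    simpa using hb

lemma dg_mo {w : Fin 3 → ℝ} (l : List (Fin 3)) : dg w (mo K l) = (l.map w).sum := by
  refine dg_eq (u := FreeMonoid.ofList l) ?_ ?_ rfl
  · intro u hu
    rw [Finsupp.mem_support_iff, mo_coeff] at hu
    have : l = u.toList := by
      by_contra h
      rw [if_neg h] at hu
      exact hu rfl
    unfold wt
    rw [← this]
  · rw [mo_coeff]
    simp

/-- the images of `x_0` and `x_1` under the automorphism of Anick -/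
noncomputable def fA (K : Type*) [Field K] : A K 3 :=
  xx 0 + xx 2 * (xx 0 * xx 2 - xx 2 * xx 1)

noncomputable def gA (K : Type*) [Field K] : A K 3 :=
  xx 1 + (xx 0 * xx 2 - xx 2 * xx 1) * xx 2

lemma fA_eq : fA K = mo K [0] + mo K [2, 0, 2] - mo K [2, 2, 1] := by
  unfold fA
  rw [mo_xx, mo_xx, mo_xx, mul_sub, mo_mul, mo_mul, mo_mul, mo_mul]
  simp only [List.cons_append, List.nil_append]
  abel

lemma gA_eq : gA K = mo K [1] + mo K [0, 2, 2] - mo K [2, 1, 2] := by
  unfold gA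
  rw [mo_xx, mo_xx, mo_xx, sub_mul, mo_mul, mo_mul, mo_mul, mo_mul]
  simp only [List.cons_append, List.nil_append]
  abel

section

variable {w : Fin 3 → ℝ} (hd : DegFacts K w) (hp : ∀ i, 0 < w i) (h10 : w 1 < w 0)

include hd

lemma lt_add {r : ℝ} {p q : A K 3} (h1 : dg w p < r) (h2 : dg w q < r) : dg w (p + q) < r :=
  lt_of_le_of_lt (hd.add_le p q) (max_lt h1 h2)

lemma lt_sub {r : ℝ} {p q : A K 3} (h1 : dg w p < r) (h2 : dg w q < r) : dg w (p - q) < r :=
  lt_of_le_of_lt (hd.sub_le p q) (max_lt h1 h2)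

lemma lt_smul {r : ℝ} {p : A K 3} (c : K) (h1 : dg w p < r) : dg w (c • p) < r :=
  lt_of_le_of_lt (hd.smul_le c p) h1

include hp h10

/-- decomposition of the elements of the vertex in the top part and the rest -/
lemma dec (a b c d : K) : ∃ t : A K 3, dg w t < w 0 + 2 * w 2 ∧
    a • fA K + b • gA K + c • xx 2 + d • 1 = (a • mo K [2, 0, 2] + b • mo K [0, 2, 2]) + t := by
  have h0 := hp 0
  have h1 := hp 1
  have h2 := hp 2
  refine ⟨a • mo K [0] - a • mo K [2, 2, 1] + b • mo K [1] - b • mo K [2, 1, 2] + c • xx 2 + d • 1,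
    ?_, ?_⟩
  · refine lt_add hd (lt_add hd (lt_sub hd (lt_add hd (lt_sub hd (lt_smul hd _ ?_)
      (lt_smul hd _ ?_)) (lt_smul hd _ ?_)) (lt_smul hd _ ?_)) (lt_smul hd _ ?_)) ?_
    · rw [dg_mo]
      simp
      linarith
    · rw [dg_mo]
      simp
      linarith
    · rw [dg_mo]
      simp
      linarith
    · rw [dg_mo]
      simp
      linarith
    · rw [hd.xx']
      linarith
    · rw [hd.const]
      linarith
  · rw [fA_eq, gA_eq, smul_sub, smul_add, smul_sub, smul_add]
    abel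

lemma dg_comb (a b c d : K) (hab : a ≠ 0 ∨ b ≠ 0) :
    dg w (a • fA K + b • gA K + c • xx 2 + d • 1) = w 0 + 2 * w 2 := by
  obtain ⟨t, ht, he⟩ := dec hd hp h10 a b c d
  have h3 : dg w (a • mo K [2, 0, 2] + b • mo K [0, 2, 2]) = w 0 + 2 * w 2 := by
    refine dg_two _ _ (by decide) a b _ ?_ ?_ hab
    · simp
      ring
    · simp
      ring
  rw [he, hd.add_left _ _ (by rw [h3]; exact ht), h3]

omit hp h10 in
lemma dg_z (c d : K) (hc : c ≠ 0) (h2 : 0 < w 2) : dg w (c • xx 2 + d • (1 : A K 3)) = w 2 := by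
  have h3 : dg w (c • xx 2 : A K 3) = w 2 := by rw [hd.smul _ _ hc, hd.xx']
  rw [hd.add_left _ _ (by rw [h3, hd.const]; exact h2), h3]

/-- the commutator of two elements with independent tops -/
lemma E_two (a b c d a' b' c' d' : K) (h : a * b' - b * a' ≠ 0) :
    E w (a • fA K + b • gA K + c • xx 2 + d • 1) (a' • fA K + b' • gA K + c' • xx 2 + d' • 1) =
      2 * (w 0 + 2 * w 2) := by
  have h0 := hp 0
  have h1 := hp 1
  have h2 := hp 2
  obtain ⟨t, ht, he⟩ := dec hd hp h10 a b c d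
  obtain ⟨t', ht', he'⟩ := dec hd hp h10 a' b' c' d'
  rw [he, he']
  unfold E
  have hdU : ∀ x y : K, dg w (x • mo K [2, 0, 2] + y • mo K [0, 2, 2]) ≤ w 0 + 2 * w 2 := by
    intro x y
    refine le_trans (hd.add_le _ _) (max_le (le_trans (hd.smul_le _ _) ?_)
      (le_trans (hd.smul_le _ _) ?_))
    · rw [dg_mo]
      simp
      linarith
    · rw [dg_mo]
      simp
      linarith
  have e1 : (a • mo K [2, 0, 2] + b • mo K [0, 2, 2]) * (a' • mo K [2, 0, 2] + b' • mo K [0, 2, 2])
      - (a' • mo K [2, 0, 2] + b' • mo K [0, 2, 2]) * (a • mo K [2, 0, 2] + b • mo K [0, 2, 2]) =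
      (a * b' - b * a') • mo K [2, 0, 2, 0, 2, 2] +
        (b * a' - a * b') • mo K [0, 2, 2, 2, 0, 2] := by
    simp only [mul_add, add_mul, smul_mul_assoc, mul_smul_comm, mo_mul, List.cons_append,
      List.nil_append]
    module
  have e2 : dg w ((a * b' - b * a') • mo K [2, 0, 2, 0, 2, 2] +
        (b * a' - a * b') • mo K [0, 2, 2, 2, 0, 2]) = 2 * (w 0 + 2 * w 2) := by
    refine dg_two _ _ (by decide) _ _ _ ?_ ?_ (Or.inl h)
    · simp
      ring
    · simp
      ring
  set P := a • mo K [2, 0, 2] + b • mo K [0, 2, 2] with hP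
  set Q := a' • mo K [2, 0, 2] + b' • mo K [0, 2, 2] with hQ
  have e3 : (P + t) * (Q + t') - (Q + t') * (P + t) =
      (P * Q - Q * P) + (P * t' - t' * P + (t * Q - Q * t) + (t * t' - t' * t)) := by
    noncomm_ring
  have hl1 : ∀ x y : A K 3, dg w x ≤ w 0 + 2 * w 2 → dg w y < w 0 + 2 * w 2 →
      dg w (x * y) < 2 * (w 0 + 2 * w 2) := by
    intro x y hx hy
    have := hd.mul_le x y
    linarith
  have hl2 : ∀ x y : A K 3, dg w x ≤ w 0 + 2 * w 2 → dg w y < w 0 + 2 * w 2 →
      dg w (y * x) < 2 * (w 0 + 2 * w 2) := by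
    intro x y hx hy
    have := hd.mul_le y x
    linarith
  rw [e3, e1]
  have e4 : dg w (P * t' - t' * P + (t * Q - Q * t) + (t * t' - t' * t)) <
      2 * (w 0 + 2 * w 2) :=
    lt_add hd (lt_add hd (lt_sub hd (hl1 _ _ (hdU _ _) ht') (hl2 _ _ (hdU _ _) ht'))
      (lt_sub hd (hl2 _ _ (hdU _ _) ht) (hl1 _ _ (hdU _ _) ht)))
      (lt_sub hd (hl1 _ _ ht.le ht') (hl2 _ _ ht.le ht'))
  rw [hd.add_left _ _ (by rw [e2]; exact e4), e2]

/-- the commutator with the third coordinate -/
lemma E_z (a b c d c' d' : K) (hab : a ≠ 0 ∨ b ≠ 0) (hc' : c' ≠ 0) :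
    E w (a • fA K + b • gA K + c • xx 2 + d • 1) (c' • xx 2 + d' • 1) =
      w 0 + 2 * w 2 + w 2 := by
  have h0 := hp 0
  have h1 := hp 1
  have h2 := hp 2
  obtain ⟨t, ht, he⟩ := dec hd hp h10 a b c d
  rw [he]
  unfold E
  set P := a • mo K [2, 0, 2] + b • mo K [0, 2, 2] with hP
  have e3 : (P + t) * (c' • xx 2 + d' • 1) - (c' • xx 2 + d' • 1) * (P + t) =
      c' • (P * xx 2 - xx 2 * P) + c' • (t * xx 2 - xx 2 * t) := by
    simp only [mul_add, add_mul, mul_smul_comm, smul_mul_assoc, mul_one, one_mul, smul_sub,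
      smul_add]
    abel
  have e1 : ∃ l l' : List (Fin 3), l ≠ l' ∧ (l.map w).sum = w 0 + 2 * w 2 + w 2 ∧
      (l'.map w).sum = w 0 + 2 * w 2 + w 2 ∧ ∃ x y : K, (x ≠ 0 ∨ y ≠ 0) ∧
      ∃ m : K, P * xx 2 - xx 2 * P = x • mo K l + y • mo K l' + m • mo K [2, 0, 2, 2] ∧
        l ≠ [2, 0, 2, 2] ∧ l' ≠ [2, 0, 2, 2] := by
    refine ⟨[0, 2, 2, 2], [2, 2, 0, 2], by decide, ?_, ?_, b, -a, ?_, a - b, ?_, by decide,
      by decide⟩
    · simp
      ring
    · simp
      ring
    · rcases hab with h | h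
      · exact Or.inr (neg_ne_zero.2 h)
      · exact Or.inl h
    · rw [hP, mo_xx]
      simp only [mul_add, add_mul, smul_mul_assoc, mul_smul_comm, mo_mul, List.cons_append,
        List.nil_append, sub_smul, neg_smul]
      abel
  have e2 : dg w (P * xx 2 - xx 2 * P) = w 0 + 2 * w 2 + w 2 := by
    have hle : dg w (P * xx 2 - xx 2 * P) ≤ w 0 + 2 * w 2 + w 2 := by
      have hPd : dg w P = w 0 + 2 * w 2 := by
        refine dg_two _ _ (by decide) a b _ ?_ ?_ hab
        · simp
          ring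
        · simp
          ring
      refine le_trans (hd.sub_le _ _) (max_le ?_ ?_)
      · have := hd.mul_le P (xx 2)
        rw [hPd, hd.xx'] at this
        exact this
      · have := hd.mul_le (xx 2) P
        rw [hPd, hd.xx'] at this
        linarith
    obtain ⟨l, l', hl, hs, hs', x, y, hxy, m, hm, hl3, hl4⟩ := e1
    have hc : ∀ u : Wd 3, (P * xx 2 - xx 2 * P).coeff u =
        (if l = u.toList then x else 0) + (if l' = u.toList then y else 0) +
        (if [2, 0, 2, 2] = u.toList then m else 0) := by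
      intro u
      rw [hm, MonoidAlgebra.coeff_add, Finsupp.add_apply, MonoidAlgebra.coeff_add,
        Finsupp.add_apply, MonoidAlgebra.coeff_smul,
        MonoidAlgebra.coeff_smul, MonoidAlgebra.coeff_smul, Finsupp.smul_apply,
        Finsupp.smul_apply, Finsupp.smul_apply, mo_coeff, mo_coeff, mo_coeff]
      split_ifs <;> simp
    have h5 : ∀ u ∈ (P * xx 2 - xx 2 * P).coeff.support, wt w u ≤ w 0 + 2 * w 2 + w 2 := by
      intro u hu
      rw [Finsupp.mem_support_iff, hc] at hu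
      by_cases h1 : l = u.toList
      · unfold wt
        rw [← h1]
        exact hs.le
      · by_cases h2 : l' = u.toList
        · unfold wt
          rw [← h2]
          exact hs'.le
        · by_cases h3 : [2, 0, 2, 2] = u.toList
          · unfold wt
            rw [← h3]
            simp
            linarith
          · rw [if_neg h1, if_neg h2, if_neg h3] at hu
            simp at hu
    rcases hxy with ha | hb
    · refine dg_eq h5 (u := FreeMonoid.ofList l) ?_ hs
      rw [hc, FreeMonoid.toList_ofList, if_pos rfl, if_neg hl.symm, if_neg hl3.symm]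
      simpa using ha
    · refine dg_eq h5 (u := FreeMonoid.ofList l') ?_ hs'
      rw [hc, FreeMonoid.toList_ofList, if_neg hl, if_pos rfl, if_neg hl4.symm]
      simpa using hb
  have e4 : dg w (c' • (P * xx 2 - xx 2 * P)) = w 0 + 2 * w 2 + w 2 := by
    rw [hd.smul _ _ hc', e2]
  have e5 : dg w (c' • (t * xx 2 - xx 2 * t)) < w 0 + 2 * w 2 + w 2 := by
    refine lt_smul hd _ (lt_sub hd ?_ ?_)
    · have := hd.mul_le t (xx 2)
      rw [hd.xx'] at this
      linarith
    · have := hd.mul_le (xx 2) t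
      rw [hd.xx'] at this
      linarith
  rw [e3, hd.add_left _ _ (by rw [e4]; exact e5), e4]

end

end

end Pool.Agent.Lib.MP_e1f7e2_al.FA.H36

namespace Pool.Agent.Lib.MP_e1f7e2_al.FA

open H36

theorem anick (K : Type*) [Field K] (w : Fin 3 → ℝ) (hw : Gen w) (h10 : w 1 < w 0)
    (F : Facts K w) (hT : TameStatement K w) (hR : RediStatement K w) : AnickStatement K := by
  intro φ h0 h1 h2 hφ
  have hd := F.d
  have hp := hw.pos
  have p0 := hp 0
  have p1 := hp 1
  have p2 := hp 2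
  have hf : φ (xx 0) = fA K := h0
  have hg : φ (xx 1) = gA K := h1
  have hfr : Fr (fA K) (gA K) (xx 2) := ⟨φ, hf, hg, h2⟩
  have hred := hT φ hφ
  rw [hf, hg, h2] at hred
  have dz : dg w (xx 2 : A K 3) = w 2 := hd.xx' 2
  have df : dg w (fA K) = w 0 + 2 * w 2 := by
    have := dg_comb hd hp h10 (1 : K) 0 0 0 (Or.inl one_ne_zero)
    simpa using this
  have dgg : dg w (gA K) = w 0 + 2 * w 2 := by
    have := dg_comb hd hp h10 (0 : K) 1 0 0 (Or.inr one_ne_zero)
    simpa using this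
  have hor : Or3 w (fA K) (gA K) (xx 2) := by
    intro a b c d
    refine ⟨fun ha => ?_, fun hb => ?_, fun hc => ?_⟩
    · rw [df, dg_comb hd hp h10 a b c d (Or.inl ha)]
    · rw [dgg, dg_comb hd hp h10 a b c d (Or.inr hb)]
    · by_cases hab : a ≠ 0 ∨ b ≠ 0
      · rw [dz, dg_comb hd hp h10 a b c d hab]
        linarith
      · push Not at hab
        rw [hab.1, hab.2, zero_smul, zero_smul, zero_add, zero_add, dg_z hd c d hc p2, dz]
  have hvd : vd w (sp (fA K) (gA K) (xx 2)) = (w 0 + 2 * w 2) + (w 0 + 2 * w 2) + w 2 := by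
    rw [F.v.eq _ _ _ hfr hor, df, dgg, dz]
  obtain ⟨P, Q, H, H', hfr', hsp, hor', hq, hlt, -, -⟩ := hR _ hred (by
    rw [hvd]
    unfold sg
    linarith)
  have hvd' := F.v.eq _ _ _ hfr' hor'
  rw [← hsp, hvd] at hvd'
  -- the elements of the vertex
  have hm : ∀ r : A K 3, r ∈ sp P Q H → ∃ a b c d : K,
      r = a • fA K + b • gA K + c • xx 2 + d • 1 := by
    intro r hr
    rw [← hsp] at hr
    exact (F.s.spmem _ _ _ _).1 hr
  have hmP : P ∈ sp P Q H := (F.s.spmem _ _ _ _).2 ⟨1, 0, 0, 0, by simp⟩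
  have hmQ : Q ∈ sp P Q H := (F.s.spmem _ _ _ _).2 ⟨0, 1, 0, 0, by simp⟩
  have hmH : H ∈ sp P Q H := (F.s.spmem _ _ _ _).2 ⟨0, 0, 1, 0, by simp⟩
  obtain ⟨a1, b1, c1, d1, eP⟩ := hm P hmP
  obtain ⟨a2, b2, c2, d2, eQ⟩ := hm Q hmQ
  obtain ⟨a3, b3, c3, d3, eH⟩ := hm H hmH
  have posP := F.f.pos _ _ _ hfr'
  have posQ := F.f.pos _ _ _ (F.f.p12 _ _ _ hfr')
  have posH := F.f.pos _ _ _ (F.f.p12 _ _ _ (F.f.p23 _ _ _ hfr'))
  have key : ∀ (a b c d : K), 0 < dg w (a • fA K + b • gA K + c • xx 2 + d • 1) →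
      ((a ≠ 0 ∨ b ≠ 0) ∧ dg w (a • fA K + b • gA K + c • xx 2 + d • 1) = w 0 + 2 * w 2) ∨
      (a = 0 ∧ b = 0 ∧ c ≠ 0 ∧
        dg w (a • fA K + b • gA K + c • xx 2 + d • 1) = w 2 ∧
        a • fA K + b • gA K + c • xx 2 + d • 1 = c • xx 2 + d • 1) := by
    intro a b c d hpos
    by_cases hab : a ≠ 0 ∨ b ≠ 0
    · exact Or.inl ⟨hab, dg_comb hd hp h10 a b c d hab⟩
    · right
      push Not at hab
      have e : a • fA K + b • gA K + c • xx 2 + d • 1 = c • xx 2 + d • 1 := by
        rw [hab.1, hab.2, zero_smul, zero_smul, zero_add, zero_add]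
      have hc : c ≠ 0 := by
        rintro rfl
        rw [e, zero_smul, zero_add, hd.const] at hpos
        exact lt_irrefl _ hpos
      refine ⟨hab.1, hab.2, hc, ?_, e⟩
      rw [e, dg_z hd c d hc p2]
  have small : ∀ (a b c d : K), a = 0 → b = 0 →
      dg w (a • fA K + b • gA K + c • xx 2 + d • 1) ≤ w 2 := by
    rintro a b c d rfl rfl
    have e : (0 : K) • fA K + (0 : K) • gA K + c • xx 2 + d • 1 = c • xx 2 + d • 1 := by
      rw [zero_smul, zero_smul, zero_add, zero_add]
    rw [e]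
    by_cases hc : c = 0
    · rw [hc, zero_smul, zero_add, hd.const]
      exact p2.le
    · rw [dg_z hd c d hc p2]
  have comb : ∀ (x y a b c d a' b' c' d' : K),
      x • (a • fA K + b • gA K + c • xx 2 + d • 1) +
        y • (a' • fA K + b' • gA K + c' • xx 2 + d' • 1) =
      (x * a + y * a') • fA K + (x * b + y * b') • gA K + (x * c + y * c') • xx 2 +
        (x * d + y * d') • 1 := by
    intro x y a b c d a' b' c' d'
    module
  -- the case of a plane containing `xx 2`
  have caseA : ∀ (P Q H H' : A K 3) (c1 d1 a2 b2 c2 d2 a3 b3 c3 d3 : K), c1 ≠ 0 →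
      P = c1 • xx 2 + d1 • 1 → (a2 ≠ 0 ∨ b2 ≠ 0) →
      Q = a2 • fA K + b2 • gA K + c2 • xx 2 + d2 • 1 →
      H = a3 • fA K + b3 • gA K + c3 • xx 2 + d3 • 1 → dg w H = w 0 + 2 * w 2 →
      Or3 w P Q H → H' - H ∈ B P Q → dg w H' < dg w H → False := by
    intro P Q H H' c1 d1 a2 b2 c2 d2 a3 b3 c3 d3 hc1 eP hab2 eQ eH dH hor hq hlt
    have dP : dg w P = w 2 := by rw [eP, dg_z hd c1 d1 hc1 p2]
    have dQ : dg w Q = w 0 + 2 * w 2 := by rw [eQ, dg_comb hd hp h10 _ _ _ _ hab2]
    have hE : E w P Q = w 0 + 2 * w 2 + w 2 := by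
      rw [F.e.comm, eQ, eP, E_z hd hp h10 a2 b2 c2 d2 c1 d1 hab2 hc1]
    have hnc : ¬ Com w P Q := by
      unfold Com
      rw [hE, dP, dQ]
      intro h
      linarith
    have dq : dg w (H' - H) ≤ w 0 + 2 * w 2 := by
      refine le_trans (hd.sub_le _ _) (max_le ?_ ?_)
      · linarith
      · exact dH.le
    obtain ⟨c, R, hcR⟩ := F.t.fr2 P Q (H' - H) (by rw [dP]; exact p2) (by rw [dQ]; linarith)
      hnc hq (by
        rw [dQ, dP, min_eq_left (by linarith)]
        linarith)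
    have hH' : H' = (H + c • Q) + Polynomial.aeval P R := by
      have : H' = H + (H' - H) := by abel
      rw [this, hcR]
      abel
    have e1 : E w H' P = E w (H + c • Q) P := by
      rw [hH', F.e.addp]
    have e2 : H + c • Q = (a3 + c * a2) • fA K + (b3 + c * b2) • gA K + (c3 + c * c2) • xx 2 +
        (d3 + c * d2) • 1 := by
      rw [eH, eQ]
      module
    by_cases hab : a3 + c * a2 ≠ 0 ∨ b3 + c * b2 ≠ 0
    · have e3 : E w (H + c • Q) P = w 0 + 2 * w 2 + w 2 := by
        rw [e2, eP, E_z hd hp h10 _ _ _ _ c1 d1 hab hc1]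
      have e4 := F.e.le H' P
      rw [e1, e3, dP] at e4
      linarith
    · push Not at hab
      have e3 := small _ _ (c3 + c * c2) (d3 + c * d2) hab.1 hab.2
      rw [← e2] at e3
      have e4 := (hor 0 c 1 0).2.2 one_ne_zero
      have e5 : (0 : K) • P + c • Q + (1 : K) • H + (0 : K) • 1 = H + c • Q := by
        rw [zero_smul, zero_smul, one_smul]
        abel
      rw [e5, dH] at e4
      linarith
  rcases key a3 b3 c3 d3 (by rw [← eH]; exact posH) with ⟨hab3, dH⟩ | ⟨ha3, hb3, hc3, dH, -⟩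
  · rw [← eH] at dH
    rcases key a1 b1 c1 d1 (by rw [← eP]; exact posP) with ⟨hab1, dP⟩ | ⟨ha1, hb1, hc1, dP, eP'⟩
    · rcases key a2 b2 c2 d2 (by rw [← eQ]; exact posQ) with ⟨hab2, dQ⟩ | ⟨ha2, hb2, hc2, dQ, eQ'⟩
      · rw [← eP] at dP
        rw [← eQ] at dQ
        rw [dP, dQ, dH] at hvd'
        linarith
      · refine caseA Q P H H' c2 d2 a1 b1 c1 d1 a3 b3 c3 d3 hc2 (by rw [eQ, eQ']) hab1 eP eH dH
          (F.o.or3p12 _ _ _ hor') (by rw [F.s.bcomm]; exact hq) hlt
    · rcases key a2 b2 c2 d2 (by rw [← eQ]; exact posQ) with ⟨hab2, dQ⟩ | ⟨ha2, hb2, hc2, dQ, eQ'⟩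
      · exact caseA P Q H H' c1 d1 a2 b2 c2 d2 a3 b3 c3 d3 hc1 (by rw [eP, eP']) hab2 eQ eH dH
          hor' hq hlt
      · rw [← eP] at dP
        rw [← eQ] at dQ
        rw [dP, dQ, dH] at hvd'
        linarith
  · rw [← eH] at dH
    have dP : dg w P = w 0 + 2 * w 2 ∧ dg w Q = w 0 + 2 * w 2 := by
      rcases key a1 b1 c1 d1 (by rw [← eP]; exact posP) with ⟨-, dP⟩ | ⟨-, -, -, dP, -⟩ <;>
      rcases key a2 b2 c2 d2 (by rw [← eQ]; exact posQ) with ⟨-, dQ⟩ | ⟨-, -, -, dQ, -⟩ <;>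
      rw [← eP] at dP <;> rw [← eQ] at dQ <;> rw [dP, dQ, dH] at hvd'
      · exact ⟨dP, dQ⟩
      all_goals exfalso; linarith
    obtain ⟨dP, dQ⟩ := dP
    have hdet : a1 * b2 - b1 * a2 ≠ 0 := by
      intro h
      have hab1 : a1 ≠ 0 ∨ b1 ≠ 0 := by
        by_contra hab
        push Not at hab
        have := small _ _ c1 d1 hab.1 hab.2
        rw [← eP, dP] at this
        linarith
      have aux : ∀ x y : K, y ≠ 0 → x * a1 + y * a2 = 0 → x * b1 + y * b2 = 0 → False := by
        intro x y hy h1 h2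
        have e4 := (hor' x y 0 0).2.1 hy
        have e5 : x • P + y • Q + (0 : K) • H + (0 : K) • 1 = x • P + y • Q := by
          rw [zero_smul, zero_smul]
          abel
        rw [e5, dQ, eP, eQ, comb] at e4
        have := small _ _ (x * c1 + y * c2) (x * d1 + y * d2) h1 h2
        linarith
      rcases hab1 with h1 | h1
      · exact aux (-a2) a1 h1 (by ring) (by linear_combination h)
      · exact aux (-b2) b1 h1 (by linear_combination -h) (by ring)
    have hE : E w P Q = 2 * (w 0 + 2 * w 2) := by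
      rw [eP, eQ, E_two hd hp h10 _ _ _ _ _ _ _ _ hdet]
    have hnc : ¬ Com w P Q := by
      unfold Com
      rw [hE, dP, dQ]
      intro h
      linarith
    have dq : dg w (H' - H) ≤ w 2 := by
      refine le_trans (hd.sub_le _ _) (max_le ?_ ?_)
      · linarith
      · exact dH.le
    obtain ⟨R, hR'⟩ := F.t.fr1 P Q (H' - H) posP posQ hnc hq (by
      rw [dQ]
      linarith)
    have hnd : R.natDegree = 0 := by
      by_contra hne
      have h1 := hd.poly P R posP
      rw [← hR', dP] at h1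
      have h3 : (1 : ℝ) ≤ R.natDegree := by
        exact_mod_cast Nat.one_le_iff_ne_zero.2 hne
      nlinarith
    obtain ⟨c, hc⟩ := hd.polyc P R hnd
    have hH' : H' = H + c • 1 := by
      have : H' = H + (H' - H) := by abel
      rw [this, hR', hc]
    have : dg w H' = dg w H := by
      rw [hH', hd.add_left _ _ (by rw [hd.const]; exact posH)]
    linarith

end Pool.Agent.Lib.MP_e1f7e2_al.FA
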